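import Mathlib

/-!
# A symbolic square of a matroidal ideal that is not componentwise linear

The ideal `I` generated by the square-free monomials of the 16 spanning trees of the complete graph
`K_4` is matroidal, hence polymatroidal.  The degree four component of `I^(2)` is generated by
the monomials of the three Hamilton cycles, and these have no linear syzygies.
-/

set_option autoImplicit false

namespace Pool.Agent.Results.MP_d6f7e8_al.GraphicK4

open MvPolynomial

/-- The set `B` is the set of bases of a discrete polymatroid: it is nonempty and finite, all its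
elements have the same coordinate sum, and it satisfies the exchange property. -/
structure IsPolymatroidBases {n : ℕ} (B : Set (Fin n →₀ ℕ)) : Prop where
  nonempty : B.Nonempty
  finite : B.Finite
  degree_eq : ∀ u ∈ B, ∀ v ∈ B, (∑ i, u i) = ∑ i, v i
  exchange : ∀ u ∈ B, ∀ v ∈ B, ∀ i, v i < u i →
    ∃ j, u j < v j ∧ u - Finsupp.single i 1 + Finsupp.single j 1 ∈ B

/-- `I` is polymatroidal: it is generated by the monomials with exponents in the set of bases of
a discrete polymatroid.  (These generators all have the same degree, so they are the minimal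
monomial generators of `I`.) -/
def IsPolymatroidal {K : Type*} [Field K] {n : ℕ} (I : Ideal (MvPolynomial (Fin n) K)) : Prop :=
  ∃ B : Set (Fin n →₀ ℕ), IsPolymatroidBases B ∧
    I = Ideal.span ((fun u => monomial u (1 : K)) '' B)

/-- The symbolic power `I^(k)`, the intersection over all associated primes `P` of `S/I` of
the contraction of `I^k S_P`. -/
noncomputable def symbolicPower {S : Type*} [CommRing S] (I : Ideal S) (k : ℕ) : Ideal S :=
  ⨅ P : associatedPrimes S (S ⧸ I),
    ((I ^ k).map (algebraMap S (Localization.AtPrime P.1))).comap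
      (algebraMap S (Localization.AtPrime P.1))

/-- `J_⟨j⟩`: the ideal generated by the homogeneous elements of `J` of degree `j`. -/
noncomputable def component {K : Type*} [Field K] {n : ℕ} (J : Ideal (MvPolynomial (Fin n) K)) (j : ℕ) :
    Ideal (MvPolynomial (Fin n) K) :=
  Ideal.span {f | f ∈ J ∧ f.IsHomogeneous j}

/-- `J` has a `j`-linear free resolution
`⋯ → S(-j-2)^(b 2) → S(-j-1)^(b 1) → S(-j)^(b 0) → J → 0`: the generators `g a` of `J` are
homogeneous of degree `j`, the maps `φ i : S^(b (i+1)) → S^(b i)` are matrices of linear forms,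
and the sequence is exact.  (Such a resolution is automatically minimal.) -/
def HasLinearResolution {K : Type*} [Field K] {n : ℕ} (J : Ideal (MvPolynomial (Fin n) K))
    (j : ℕ) : Prop :=
  ∃ (b : ℕ → ℕ) (g : Fin (b 0) → MvPolynomial (Fin n) K)
    (φ : (i : ℕ) → Matrix (Fin (b i)) (Fin (b (i + 1))) (MvPolynomial (Fin n) K)),
    (∀ a, (g a).IsHomogeneous j) ∧ Ideal.span (Set.range g) = J ∧
    (∀ i a c, (φ i a c).IsHomogeneous 1) ∧
    (∀ v : Fin (b 0) → MvPolynomial (Fin n) K,
      (∑ a, v a * g a = 0) ↔ ∃ w, v = (φ 0).mulVec w) ∧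
    (∀ i, ∀ v : Fin (b (i + 1)) → MvPolynomial (Fin n) K,
      (φ i).mulVec v = 0 ↔ ∃ w, v = (φ (i + 1)).mulVec w)

/-- `J` is componentwise linear: every `J_⟨j⟩` has a `j`-linear resolution. -/
def IsComponentwiseLinear {K : Type*} [Field K] {n : ℕ} (J : Ideal (MvPolynomial (Fin n) K)) :
    Prop :=
  ∀ j, HasLinearResolution (component J j) j

/-! ### The spanning trees of `K_4`

The edges `12, 34, 23, 14, 13, 24` of `K_4` are numbered `0, 1, 2, 3, 4, 5`.  -/

/-- The spanning trees of `K_4` are the triples of edges that are not triangles. -/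
def IsTree (T : Finset (Fin 6)) : Prop :=
  T.card = 3 ∧ T ≠ {0, 2, 4} ∧ T ≠ {0, 3, 5} ∧ T ≠ {1, 2, 5} ∧ T ≠ {1, 3, 4}

instance (T : Finset (Fin 6)) : Decidable (IsTree T) := by unfold IsTree; infer_instance

/-- The exponents of the square-free monomials of the spanning trees. -/
def treeExponents : Set (Fin 6 →₀ ℕ) := {u | (∀ i, u i ≤ 1) ∧ IsTree u.support}

/-- The ideal generated by the monomials of the spanning trees of `K_4`. -/
noncomputable def treeIdeal (K : Type*) [Field K] : Ideal (MvPolynomial (Fin 6) K) :=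
  Ideal.span ((fun u => monomial u (1 : K)) '' treeExponents)

/-! ### Finite checks -/

/-- The set of edges contains a spanning tree. -/
def Sp (U : Finset (Fin 6)) : Prop := IsTree U ∨ 4 ≤ U.card

instance (T : Finset (Fin 6)) : Decidable (Sp T) := by unfold Sp; infer_instance

set_option maxRecDepth 20000 in
lemma spanning_of_card : ∀ U : Finset (Fin 6), 4 ≤ U.card → ∃ T, IsTree T ∧ T ⊆ U := by
  decide

lemma sp_iff (U : Finset (Fin 6)) : (∃ T, IsTree T ∧ T ⊆ U) ↔ Sp U := by
  constructor
  · rintro ⟨T, hT, hTU⟩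
    by_cases h : U.card ≤ 3
    · left
      have : T = U := Finset.eq_of_subset_of_card_le hTU (by rw [hT.1]; exact h)
      rw [← this]; exact hT
    · right; omega
  · rintro (h | h)
    · exact ⟨U, h, subset_rfl⟩
    · exact spanning_of_card U h

lemma sp_mono {U V : Finset (Fin 6)} (h : U ⊆ V) (hU : Sp U) : Sp V := by
  rw [← sp_iff] at hU ⊢
  obtain ⟨T, hT, hTU⟩ := hU
  exact ⟨T, hT, hTU.trans h⟩

set_option maxRecDepth 100000 in
lemma exchange_trees : ∀ T₁ : Finset (Fin 6), IsTree T₁ → ∀ T₂ : Finset (Fin 6), IsTree T₂ →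
    ∀ i, i ∈ T₁ → i ∉ T₂ → ∃ j, j ∉ T₁ ∧ j ∈ T₂ ∧ IsTree (insert j (T₁.erase i)) := by
  decide +kernel

set_option maxRecDepth 100000 in
lemma two_nonspanning : ∀ U : Finset (Fin 6), Sp U ∨
    ∃ e f : Fin 6, e ≠ f ∧ ¬ Sp (insert e U) ∧ ¬ Sp (insert f U) := by
  decide +kernel

/-- The bonds (minimal cuts) of `K_4`. -/
def bonds : List (Finset (Fin 6)) :=
  [{0, 2, 5}, {0, 3, 4}, {1, 2, 4}, {1, 3, 5}, {0, 1, 2, 3}, {0, 1, 4, 5}, {2, 3, 4, 5}]

lemma bond_not_sp : ∀ C ∈ bonds, ¬ Sp Cᶜ := by decide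

lemma bond_sp : ∀ C ∈ bonds, ∀ i ∈ C, Sp (insert i Cᶜ) := by decide

set_option maxRecDepth 100000 in
lemma bond_tree : ∀ C ∈ bonds, ∀ T : Finset (Fin 6), IsTree T → ∃ i ∈ C, i ∈ T := by
  decide +kernel

/-- Two trees whose product is a Hamilton cycle times two edges. -/
lemma split_A : ∀ e f : Fin 6, e ≠ f → ∃ T₁ T₂ : Finset (Fin 6), IsTree T₁ ∧ IsTree T₂ ∧
    ∀ i, (if i ∈ ({0, 1, 2, 3} : Finset (Fin 6)) then 1 else 0) + (if i = e then 1 else 0)
      + (if i = f then 1 else 0) = (if i ∈ T₁ then 1 else 0) + (if i ∈ T₂ then 1 else 0) := by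
  intro e f hef
  fin_cases e <;> fin_cases f <;> first
    | exact absurd rfl hef
    | exact ⟨{0, 1, 2}, {0, 1, 3}, by decide⟩
    | exact ⟨{0, 1, 2}, {0, 2, 3}, by decide⟩
    | exact ⟨{0, 1, 3}, {0, 2, 3}, by decide⟩
    | exact ⟨{0, 1, 2}, {0, 3, 4}, by decide⟩
    | exact ⟨{0, 1, 3}, {0, 2, 5}, by decide⟩
    | exact ⟨{0, 1, 2}, {1, 2, 3}, by decide⟩
    | exact ⟨{0, 1, 3}, {1, 2, 3}, by decide⟩
    | exact ⟨{0, 1, 3}, {1, 2, 4}, by decide⟩
    | exact ⟨{0, 1, 2}, {1, 3, 5}, by decide⟩
    | exact ⟨{0, 2, 3}, {1, 2, 3}, by decide⟩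
    | exact ⟨{0, 1, 2}, {2, 3, 4}, by decide⟩
    | exact ⟨{0, 1, 2}, {2, 3, 5}, by decide⟩
    | exact ⟨{0, 1, 3}, {2, 3, 4}, by decide⟩
    | exact ⟨{0, 1, 3}, {2, 3, 5}, by decide⟩
    | exact ⟨{0, 1, 2}, {3, 4, 5}, by decide⟩

lemma split_B : ∀ e f : Fin 6, e ≠ f → ∃ T₁ T₂ : Finset (Fin 6), IsTree T₁ ∧ IsTree T₂ ∧
    ∀ i, (if i ∈ ({0, 1, 4, 5} : Finset (Fin 6)) then 1 else 0) + (if i = e then 1 else 0)
      + (if i = f then 1 else 0) = (if i ∈ T₁ then 1 else 0) + (if i ∈ T₂ then 1 else 0) := by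
  intro e f hef
  fin_cases e <;> fin_cases f <;> first
    | exact absurd rfl hef
    | exact ⟨{0, 1, 4}, {0, 1, 5}, by decide⟩
    | exact ⟨{0, 1, 2}, {0, 4, 5}, by decide⟩
    | exact ⟨{0, 1, 3}, {0, 4, 5}, by decide⟩
    | exact ⟨{0, 1, 4}, {0, 4, 5}, by decide⟩
    | exact ⟨{0, 1, 5}, {0, 4, 5}, by decide⟩
    | exact ⟨{0, 1, 2}, {1, 4, 5}, by decide⟩
    | exact ⟨{0, 1, 3}, {1, 4, 5}, by decide⟩
    | exact ⟨{0, 1, 4}, {1, 4, 5}, by decide⟩
    | exact ⟨{0, 1, 5}, {1, 4, 5}, by decide⟩
    | exact ⟨{0, 1, 2}, {3, 4, 5}, by decide⟩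
    | exact ⟨{0, 1, 4}, {2, 4, 5}, by decide⟩
    | exact ⟨{0, 1, 5}, {2, 4, 5}, by decide⟩
    | exact ⟨{0, 1, 4}, {3, 4, 5}, by decide⟩
    | exact ⟨{0, 1, 5}, {3, 4, 5}, by decide⟩
    | exact ⟨{0, 4, 5}, {1, 4, 5}, by decide⟩

/-! ### The ideal of spanning trees -/

/-- The exponent vector of a square-free monomial. -/
noncomputable def ind (T : Finset (Fin 6)) : Fin 6 →₀ ℕ := Finsupp.indicator T (fun _ _ => 1)

@[simp] lemma ind_apply (T : Finset (Fin 6)) (i : Fin 6) : ind T i = if i ∈ T then 1 else 0 := by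
  unfold ind
  rw [Finsupp.indicator_apply]
  split_ifs <;> rfl

lemma support_ind (T : Finset (Fin 6)) : (ind T).support = T := by
  ext i; simp

lemma eq_ind {u : Fin 6 →₀ ℕ} (h : ∀ i, u i ≤ 1) : u = ind u.support := by
  ext i
  rw [ind_apply]
  have := h i
  by_cases hi : u i = 0
  · simp [hi]
  · simp [hi]; omega

lemma ind_mem_treeExponents {T : Finset (Fin 6)} (hT : IsTree T) : ind T ∈ treeExponents := by
  refine ⟨fun i => ?_, by rw [support_ind]; exact hT⟩
  rw [ind_apply]; split_ifs <;> simp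

lemma isPolymatroidBases : IsPolymatroidBases treeExponents where
  nonempty := ⟨ind {0, 1, 2}, ind_mem_treeExponents (by decide)⟩
  finite := by
    refine (Set.finite_range ind).subset ?_
    rintro u ⟨hu, -⟩
    exact ⟨u.support, (eq_ind hu).symm⟩
  degree_eq := by
    have h : ∀ u ∈ treeExponents, ∑ i, u i = 3 := by
      rintro u ⟨hu, hT⟩
      rw [eq_ind hu]
      simp only [ind_apply]
      rw [Finset.sum_ite_mem, Finset.univ_inter, Finset.sum_const, smul_eq_mul, mul_one, hT.1]
    intro u hu v hv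
    rw [h u hu, h v hv]
  exchange := by
    rintro u ⟨hu, hTu⟩ v ⟨hv, hTv⟩ i hi
    have hui : u i = 1 := by have := hu i; omega
    have hvi : v i = 0 := by have := hu i; omega
    obtain ⟨j, hj1, hj2, hj3⟩ := exchange_trees _ hTu _ hTv i
      (by simp [hui]) (by simp [hvi])
    have huj : u j = 0 := by simpa using hj1
    have hvj : v j ≠ 0 := by simpa using hj2
    have hij : j ≠ i := by rintro rfl; omega
    refine ⟨j, by omega, ?_⟩
    have : u - Finsupp.single i 1 + Finsupp.single j 1 = ind (insert j (u.support.erase i)) := by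
      ext l
      rw [ind_apply]
      by_cases hlj : l = j
      · subst hlj
        simp [huj]
      · by_cases hli : l = i
        · subst hli
          simp [hlj, hui]
        · have := hu l
          by_cases hl : u l = 0
          · simp [hlj, hli, hl]
          · have h1 : u l = 1 := by omega
            simp [hlj, hli, h1]
    rw [this]
    exact ind_mem_treeExponents hj3

section Field

variable {K : Type*} [Field K]

lemma mem_treeIdeal (f : MvPolynomial (Fin 6) K) :
    f ∈ treeIdeal K ↔ ∀ m ∈ f.support, Sp m.support := by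
  unfold treeIdeal
  rw [mem_ideal_span_monomial_image]
  refine forall₂_congr (fun m _ => ?_)
  rw [← sp_iff]
  constructor
  · rintro ⟨u, ⟨hu, hT⟩, hle⟩
    refine ⟨u.support, hT, ?_⟩
    intro i hi
    have := hle i
    simp only [Finsupp.mem_support_iff] at hi ⊢
    omega
  · rintro ⟨T, hT, hTm⟩
    refine ⟨ind T, ind_mem_treeExponents hT, ?_⟩
    intro i
    rw [ind_apply]
    split_ifs with h
    · have := hTm h
      simp only [Finsupp.mem_support_iff] at this
      omega
    · exact Nat.zero_le _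

/-- The grading by the number of edges in `C`. -/
noncomputable def psi (C : Finset (Fin 6)) :
    MvPolynomial (Fin 6) K →ₐ[K] Polynomial (MvPolynomial (Fin 6) K) :=
  aeval (fun i => if i ∈ C then Polynomial.X * Polynomial.C (X i) else Polynomial.C (X i))

lemma psi_monomial (C : Finset (Fin 6)) (m : Fin 6 →₀ ℕ) (a : K) :
    psi C (monomial m a) = Polynomial.X ^ (∑ i ∈ C, m i) * Polynomial.C (monomial m a) := by
  unfold psi
  rw [aeval_monomial]
  have h1 : ∀ i ∈ m.support, (if i ∈ C then Polynomial.X * Polynomial.C (X i)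
      else Polynomial.C (X i) : Polynomial (MvPolynomial (Fin 6) K)) ^ m i
      = Polynomial.X ^ (if i ∈ C then m i else 0) * Polynomial.C (X i ^ m i) := by
    intro i _
    split_ifs with h
    · rw [mul_pow, Polynomial.C_pow]
    · rw [pow_zero, one_mul, Polynomial.C_pow]
  rw [Finsupp.prod, Finset.prod_congr rfl h1, Finset.prod_mul_distrib, Finset.prod_pow_eq_pow_sum,
    ← map_prod]
  have h2 : ∑ i ∈ m.support, (if i ∈ C then m i else 0) = ∑ i ∈ C, m i := by
    rw [← Finset.sum_filter]
    have h3 : (m.support.filter (fun i => i ∈ C)) ⊆ C := by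
      intro i hi; exact (Finset.mem_filter.mp hi).2
    refine Finset.sum_subset h3 ?_
    intro i hi hi2
    by_contra h0
    exact hi2 (Finset.mem_filter.mpr ⟨Finsupp.mem_support_iff.mpr h0, hi⟩)
  rw [h2]
  have h4 : (algebraMap K (Polynomial (MvPolynomial (Fin 6) K))) a
      = Polynomial.C (MvPolynomial.C a) := rfl
  rw [h4, ← mul_assoc, mul_comm (Polynomial.C (MvPolynomial.C a)), mul_assoc,
    ← Polynomial.C_mul]
  congr 2
  rw [monomial_eq, Finsupp.prod]

lemma coeff_psi (C : Finset (Fin 6)) (f : MvPolynomial (Fin 6) K) (k : ℕ) (m : Fin 6 →₀ ℕ) :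
    coeff m ((psi C f).coeff k) = if k = ∑ i ∈ C, m i then coeff m f else 0 := by
  induction f using MvPolynomial.induction_on' with
  | monomial u a =>
    rw [psi_monomial, Polynomial.coeff_X_pow_mul', Polynomial.coeff_C, coeff_monomial]
    by_cases hum : u = m
    · subst hum
      by_cases hk : k = ∑ i ∈ C, u i
      · rw [if_pos (by omega), if_pos (by omega), if_pos hk, coeff_monomial, if_pos rfl]
      · rw [if_neg hk]
        split_ifs with h1 h2
        · omega
        · simp
        · simp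
    · have : ∀ b : K, coeff m (monomial u b) = 0 := fun b => by rw [coeff_monomial, if_neg hum]
      rw [if_neg hum, ite_self]
      split_ifs <;> simp [this]
  | add p q hp hq =>
    rw [map_add, Polynomial.coeff_add, coeff_add, hp, hq, coeff_add]
    split_ifs <;> simp

/-- Divisibility by a power of the grading variable. -/
lemma pow_dvd_psi (C : Finset (Fin 6)) (f : MvPolynomial (Fin 6) K) (k : ℕ) :
    Polynomial.X ^ k ∣ psi C f ↔ ∀ m ∈ f.support, k ≤ ∑ i ∈ C, m i := by
  rw [Polynomial.X_pow_dvd_iff]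
  constructor
  · intro h m hm
    by_contra hlt
    have h1 := h (∑ i ∈ C, m i) (by omega)
    have h2 := coeff_psi C f (∑ i ∈ C, m i) m
    rw [h1, coeff_zero, if_pos rfl] at h2
    exact (mem_support_iff.mp hm) h2.symm
  · intro h d hd
    ext m
    rw [coeff_psi, coeff_zero]
    split_ifs with h1
    · by_contra h2
      have := h m (mem_support_iff.mpr h2)
      omega
    · rfl

/-- The ideal generated by the variables in `C`. -/
noncomputable def PC (K : Type*) [Field K] (C : Finset (Fin 6)) :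
    Ideal (MvPolynomial (Fin 6) K) := Ideal.span (X '' (C : Set (Fin 6)))

lemma mem_PC (C : Finset (Fin 6)) (f : MvPolynomial (Fin 6) K) :
    f ∈ PC K C ↔ ∀ m ∈ f.support, 1 ≤ ∑ i ∈ C, m i := by
  unfold PC
  rw [mem_ideal_span_X_image]
  refine forall₂_congr (fun m _ => ?_)
  constructor
  · rintro ⟨i, hi, h0⟩
    have : m i ≤ ∑ j ∈ C, m j :=
      Finset.single_le_sum (f := fun i => m i) (fun j _ => Nat.zero_le _) hi
    omega
  · intro h
    by_contra hcon
    push Not at hcon
    have : ∑ i ∈ C, m i = 0 := Finset.sum_eq_zero (fun i hi => hcon i hi)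
    omega

lemma PC_eq_comap (C : Finset (Fin 6)) :
    PC K C = (Ideal.span {(Polynomial.X : Polynomial (MvPolynomial (Fin 6) K))}).comap
      (psi C) := by
  ext f
  rw [mem_PC, Ideal.mem_comap, Ideal.mem_span_singleton, ← pow_one Polynomial.X, pow_dvd_psi]

lemma PC_isPrime (C : Finset (Fin 6)) : (PC K C).IsPrime := by
  rw [PC_eq_comap]
  have : (Ideal.span {(Polynomial.X : Polynomial (MvPolynomial (Fin 6) K))}).IsPrime := by
    rw [Ideal.span_singleton_prime Polynomial.X_ne_zero]
    exact Polynomial.prime_X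
  exact Ideal.comap_isPrime _ _

lemma support_X_mul_sub (m : Fin 6 →₀ ℕ) (U : Finset (Fin 6)) :
    (m + ind U).support = m.support ∪ U := by
  ext i
  simp only [Finsupp.mem_support_iff, Finsupp.add_apply, ind_apply, Finset.mem_union]
  by_cases h : i ∈ U <;> simp [h]

lemma PC_mem_associatedPrimes (C : Finset (Fin 6)) (hC : C ∈ bonds) :
    PC K C ∈ associatedPrimes (MvPolynomial (Fin 6) K) (MvPolynomial (Fin 6) K ⧸ treeIdeal K) := by
  rw [AssociatedPrimes.mem_iff]
  refine ⟨PC_isPrime C, Ideal.Quotient.mk _ (monomial (ind Cᶜ) 1), ?_⟩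
  have key : (⊥ : Submodule (MvPolynomial (Fin 6) K) (MvPolynomial (Fin 6) K ⧸ treeIdeal K)).colon
      {Ideal.Quotient.mk (treeIdeal K) (monomial (ind Cᶜ) 1)} = PC K C := by
    ext g
    rw [Submodule.mem_colon_singleton, Submodule.mem_bot, mem_PC]
    have h1 : g • (Ideal.Quotient.mk (treeIdeal K) (monomial (ind Cᶜ) 1))
        = Ideal.Quotient.mk (treeIdeal K) (g * monomial (ind Cᶜ) 1) := by
      rw [map_mul]; rfl
    rw [h1, Ideal.Quotient.eq_zero_iff_mem, mem_treeIdeal]
    constructor
    · intro h m hm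
      by_contra hlt
      have h0 : ∑ i ∈ C, m i = 0 := by omega
      have h2 := h (m + ind Cᶜ) (by
        rw [mem_support_iff, coeff_mul_monomial, mul_one]
        exact mem_support_iff.mp hm)
      rw [support_X_mul_sub] at h2
      apply bond_not_sp C hC
      refine sp_mono ?_ h2
      intro i hi
      rcases Finset.mem_union.mp hi with hi | hi
      · rw [Finset.mem_compl]
        intro hiC
        exact (Finsupp.mem_support_iff.mp hi) (Finset.sum_eq_zero_iff.mp h0 i hiC)
      · exact hi
    · intro h m hm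
      rw [mem_support_iff, coeff_mul_monomial'] at hm
      have hle : ind Cᶜ ≤ m := by
        by_contra hcon
        rw [if_neg hcon] at hm
        exact hm rfl
      rw [if_pos hle, mul_one] at hm
      have h2 := h _ (mem_support_iff.mpr hm)
      obtain ⟨i, hi, hi2⟩ : ∃ i ∈ C, (m - ind Cᶜ) i ≠ 0 := by
        by_contra hcon
        push Not at hcon
        rw [Finset.sum_eq_zero hcon] at h2
        omega
      refine sp_mono ?_ (bond_sp C hC i hi)
      intro l hl
      rcases Finset.mem_insert.mp hl with rfl | hl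
      · rw [Finsupp.mem_support_iff]
        intro h0
        apply hi2
        rw [Finsupp.tsub_apply, h0, zero_tsub]
      · rw [Finsupp.mem_support_iff]
        have := hle l
        rw [ind_apply, if_pos hl] at this
        omega
  rw [key]
  exact (PC_isPrime C).radical.symm

lemma treeIdeal_le_PC (C : Finset (Fin 6)) (hC : C ∈ bonds) : treeIdeal K ≤ PC K C := by
  intro f hf
  rw [mem_treeIdeal] at hf
  rw [mem_PC]
  intro m hm
  obtain ⟨T, hT, hTm⟩ := (sp_iff _).mpr (hf m hm)
  obtain ⟨i, hiC, hiT⟩ := bond_tree C hC T hT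
  have h1 : m i ≤ ∑ j ∈ C, m j :=
    Finset.single_le_sum (f := fun i => m i) (fun j _ => Nat.zero_le _) hiC
  have h2 : m i ≠ 0 := Finsupp.mem_support_iff.mp (hTm hiT)
  omega

/-- Every monomial occurring in an element of `I^(2)` has degree at least two along each bond. -/
lemma two_le_of_mem_symbolicPower (C : Finset (Fin 6)) (hC : C ∈ bonds)
    (f : MvPolynomial (Fin 6) K) (hf : f ∈ symbolicPower (treeIdeal K) 2) :
    ∀ m ∈ f.support, 2 ≤ ∑ i ∈ C, m i := by
  unfold symbolicPower at hf
  rw [Ideal.mem_iInf] at hf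
  have h1 := hf ⟨PC K C, PC_mem_associatedPrimes C hC⟩
  have : (PC K C).IsPrime := PC_isPrime C
  rw [Ideal.mem_comap,
    IsLocalization.algebraMap_mem_map_algebraMap_iff (PC K C).primeCompl] at h1
  obtain ⟨s, hs, hsf⟩ := h1
  have hs' : s ∉ PC K C := hs
  rw [← pow_dvd_psi]
  have hdvd : Polynomial.X ^ 2 ∣ psi C s * psi C f := by
    rw [← map_mul, ← Ideal.mem_span_singleton, ← Ideal.span_singleton_pow]
    have h2 : (treeIdeal K) ^ 2 ≤ ((Ideal.span {(Polynomial.X :
        Polynomial (MvPolynomial (Fin 6) K))}) ^ 2).comap (psi C) := by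
      refine (Ideal.pow_right_mono (treeIdeal_le_PC C hC) 2).trans ?_
      rw [PC_eq_comap]
      exact Ideal.le_comap_pow _ 2
    exact h2 hsf
  refine Polynomial.prime_X.pow_dvd_of_dvd_mul_left 2 ?_ hdvd
  intro h3
  apply hs'
  rw [mem_PC, ← pow_dvd_psi, pow_one]
  exact h3

/-- An associated prime of `S/I` misses at least two variables. -/
lemma exists_two_not_mem (P : Ideal (MvPolynomial (Fin 6) K))
    (hP : P ∈ associatedPrimes (MvPolynomial (Fin 6) K)
      (MvPolynomial (Fin 6) K ⧸ treeIdeal K)) :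
    ∃ e f : Fin 6, e ≠ f ∧ (X e : MvPolynomial (Fin 6) K) ∉ P ∧
      (X f : MvPolynomial (Fin 6) K) ∉ P := by
  rw [AssociatedPrimes.mem_iff] at hP
  have hprime := hP.isPrime
  obtain ⟨-, x, hx⟩ := hP
  obtain ⟨g, rfl⟩ := Ideal.Quotient.mk_surjective x
  have hg : g ∉ treeIdeal K := by
    intro h
    apply hprime.ne_top
    rw [hx, Ideal.Quotient.eq_zero_iff_mem.mpr h]
    rw [Ideal.eq_top_iff_one]
    refine Ideal.le_radical ?_
    rw [Submodule.mem_colon_singleton, smul_zero]
    exact Submodule.zero_mem _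
  rw [mem_treeIdeal] at hg
  push Not at hg
  obtain ⟨m, hm, hsp⟩ := hg
  rcases two_nonspanning m.support with h | ⟨e, f, hef, he, hf⟩
  · exact absurd h hsp
  have key : ∀ i : Fin 6, (X i : MvPolynomial (Fin 6) K) ∈ P → Sp (insert i m.support) := by
    intro i hi
    rw [hx] at hi
    obtain ⟨N, hN⟩ := hi
    rw [Submodule.mem_colon_singleton, Submodule.mem_bot] at hN
    have h1 : (X i : MvPolynomial (Fin 6) K) ^ N • (Ideal.Quotient.mk (treeIdeal K) g)
        = Ideal.Quotient.mk (treeIdeal K) (g * monomial (Finsupp.single i N) 1) := by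
      rw [← X_pow_eq_monomial, mul_comm g, map_mul]; rfl
    rw [h1, Ideal.Quotient.eq_zero_iff_mem, mem_treeIdeal] at hN
    have h2 := hN (m + Finsupp.single i N) (by
      rw [mem_support_iff, coeff_mul_monomial, mul_one]
      exact mem_support_iff.mp hm)
    refine sp_mono ?_ h2
    intro l hl
    rw [Finset.mem_insert, Finsupp.mem_support_iff]
    rw [Finsupp.mem_support_iff, Finsupp.add_apply] at hl
    by_cases hli : l = i
    · exact Or.inl hli
    · right
      intro h0
      rw [h0, Finsupp.single_apply, if_neg (Ne.symm hli)] at hl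
      exact hl rfl
  exact ⟨e, f, hef, fun h => he (key e h), fun h => hf (key f h)⟩

/-- A criterion for membership of a monomial in `I^(2)`. -/
lemma monomial_mem_symbolicPower (W : Finset (Fin 6))
    (hW : ∀ e f : Fin 6, e ≠ f → ∃ T₁ T₂ : Finset (Fin 6), IsTree T₁ ∧ IsTree T₂ ∧
    ∀ i, (if i ∈ W then 1 else 0) + (if i = e then 1 else 0)
      + (if i = f then 1 else 0) = (if i ∈ T₁ then 1 else 0) + (if i ∈ T₂ then 1 else 0)) :
    (monomial (ind W) (1 : K)) ∈ symbolicPower (treeIdeal K) 2 := by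
  unfold symbolicPower
  rw [Ideal.mem_iInf]
  intro P
  rw [Ideal.mem_comap, IsLocalization.algebraMap_mem_map_algebraMap_iff P.1.primeCompl]
  obtain ⟨e, f, hef, he, hf⟩ := exists_two_not_mem P.1 P.2
  refine ⟨X e * X f, ?_, ?_⟩
  · intro h
    rcases (AssociatedPrimes.mem_iff.mp P.2).isPrime.mem_or_mem h with h | h
    · exact he h
    · exact hf h
  · obtain ⟨T₁, T₂, h1, h2, h3⟩ := hW e f hef
    have : (X e * X f * monomial (ind W) 1 : MvPolynomial (Fin 6) K)
        = monomial (ind T₁) 1 * monomial (ind T₂) 1 := by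
      have hs : Finsupp.single e 1 + Finsupp.single f 1 + ind W = ind T₁ + ind T₂ := by
        ext i
        have h4 := h3 i
        simp only [Finsupp.add_apply, ind_apply, Finsupp.single_apply]
        rw [← h4]
        have e1 : (if e = i then 1 else 0 : ℕ) = if i = e then 1 else 0 := by
          simp only [eq_comm]
        have e2 : (if f = i then 1 else 0 : ℕ) = if i = f then 1 else 0 := by
          simp only [eq_comm]
        rw [e1, e2]; ring
      rw [X, X, monomial_mul, monomial_mul, monomial_mul, hs]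
      simp
    rw [this, pow_two]
    exact Ideal.mul_mem_mul (Ideal.subset_span ⟨_, ind_mem_treeExponents h1, rfl⟩)
      (Ideal.subset_span ⟨_, ind_mem_treeExponents h2, rfl⟩)

/-- The monomials of degree four occurring in elements of `I^(2)` are the Hamilton cycles. -/
lemma support_of_mem (f : MvPolynomial (Fin 6) K) (hf : f ∈ symbolicPower (treeIdeal K) 2)
    (h4 : f.IsHomogeneous 4) (m : Fin 6 →₀ ℕ) (hm : m ∈ f.support) :
    m = ind {0, 1, 2, 3} ∨ m = ind {0, 1, 4, 5} ∨ m = ind {2, 3, 4, 5} := by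
  have hdeg : m 0 + m 1 + m 2 + m 3 + m 4 + m 5 = 4 := by
    have h := h4 (mem_support_iff.mp hm)
    rw [Finsupp.weight_apply, Finsupp.sum_fintype _ _ (by simp)] at h
    simpa [Fin.sum_univ_succ, add_assoc] using h
  have b1 := two_le_of_mem_symbolicPower {0, 2, 5} (by decide) f hf m hm
  have b2 := two_le_of_mem_symbolicPower {0, 3, 4} (by decide) f hf m hm
  have b3 := two_le_of_mem_symbolicPower {1, 2, 4} (by decide) f hf m hm
  have b4 := two_le_of_mem_symbolicPower {1, 3, 5} (by decide) f hf m hm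
  have b5 := two_le_of_mem_symbolicPower {0, 1, 2, 3} (by decide) f hf m hm
  have b6 := two_le_of_mem_symbolicPower {0, 1, 4, 5} (by decide) f hf m hm
  have b7 := two_le_of_mem_symbolicPower {2, 3, 4, 5} (by decide) f hf m hm
  have s3 : ∀ a b c : Fin 6, a ≠ b → a ≠ c → b ≠ c →
      ∑ i ∈ ({a, b, c} : Finset (Fin 6)), m i = m a + m b + m c := by
    intro a b c hab hac hbc
    rw [Finset.sum_insert (by simp [hab, hac]), Finset.sum_insert (by simp [hbc]),
      Finset.sum_singleton, add_assoc]
  have s4 : ∀ a b c d : Fin 6, a ≠ b → a ≠ c → a ≠ d → b ≠ c → b ≠ d → c ≠ d →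
      ∑ i ∈ ({a, b, c, d} : Finset (Fin 6)), m i = m a + m b + m c + m d := by
    intro a b c d hab hac had hbc hbd hcd
    rw [Finset.sum_insert (by simp [hab, hac, had]), s3 b c d hbc hbd hcd]
    ring
  rw [s3 _ _ _ (by decide) (by decide) (by decide)] at b1 b2 b3 b4
  rw [s4 _ _ _ _ (by decide) (by decide) (by decide) (by decide) (by decide) (by decide)]
    at b5 b6 b7
  have hcase : (m 0 = 1 ∧ m 1 = 1 ∧ m 2 = 1 ∧ m 3 = 1 ∧ m 4 = 0 ∧ m 5 = 0) ∨
      (m 0 = 1 ∧ m 1 = 1 ∧ m 2 = 0 ∧ m 3 = 0 ∧ m 4 = 1 ∧ m 5 = 1) ∨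
      (m 0 = 0 ∧ m 1 = 0 ∧ m 2 = 1 ∧ m 3 = 1 ∧ m 4 = 1 ∧ m 5 = 1) := by omega
  rcases hcase with ⟨h0, h1, h2, h3, h4, h5⟩ | ⟨h0, h1, h2, h3, h4, h5⟩ | ⟨h0, h1, h2, h3, h4, h5⟩
  · left; ext i; rw [ind_apply]; fin_cases i <;> simp [h0, h1, h2, h3, h4, h5]
  · right; left; ext i; rw [ind_apply]; fin_cases i <;> simp [h0, h1, h2, h3, h4, h5]
  · right; right; ext i; rw [ind_apply]; fin_cases i <;> simp [h0, h1, h2, h3, h4, h5]

/-- An element of degree four of `I^(2)` is a combination of the three Hamilton cycles. -/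
lemma eq_comb (f : MvPolynomial (Fin 6) K) (hf : f ∈ symbolicPower (treeIdeal K) 2)
    (h4 : f.IsHomogeneous 4) :
    f = C (coeff (ind {0, 1, 2, 3}) f) * monomial (ind {0, 1, 2, 3}) 1
      + C (coeff (ind {0, 1, 4, 5}) f) * monomial (ind {0, 1, 4, 5}) 1
      + C (coeff (ind {2, 3, 4, 5}) f) * monomial (ind {2, 3, 4, 5}) 1 := by
  have hAB : ind {0, 1, 2, 3} ≠ ind {0, 1, 4, 5} := by
    intro h; have := DFunLike.congr_fun h 2; simp at this
  have hAC : ind {0, 1, 2, 3} ≠ ind {2, 3, 4, 5} := by
    intro h; have := DFunLike.congr_fun h 0; simp at this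
  have hBC : ind {0, 1, 4, 5} ≠ ind {2, 3, 4, 5} := by
    intro h; have := DFunLike.congr_fun h 0; simp at this
  ext m
  simp only [coeff_add, coeff_C_mul, coeff_monomial]
  by_cases hm : m ∈ f.support
  · rcases support_of_mem f hf h4 m hm with rfl | rfl | rfl
    · simp [hAB.symm, hAC.symm]
    · simp [hAB, hBC.symm]
    · simp [hAC, hBC]
  · have h0 : coeff m f = 0 := by simpa using hm
    have c1 : coeff (ind {0, 1, 2, 3}) f * (if ind {0, 1, 2, 3} = m then 1 else 0) = 0 := by
      split_ifs with h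
      · rw [h, h0, zero_mul]
      · rw [mul_zero]
    have c2 : coeff (ind {0, 1, 4, 5}) f * (if ind {0, 1, 4, 5} = m then 1 else 0) = 0 := by
      split_ifs with h
      · rw [h, h0, zero_mul]
      · rw [mul_zero]
    have c3 : coeff (ind {2, 3, 4, 5}) f * (if ind {2, 3, 4, 5} = m then 1 else 0) = 0 := by
      split_ifs with h
      · rw [h, h0, zero_mul]
      · rw [mul_zero]
    rw [h0, c1, c2, c3]; simp

/-- The coefficient extraction used for the linear syzygies. -/
lemma coeff_extract (P Q R : MvPolynomial (Fin 6) K) (i : Fin 6) :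
    coeff (Finsupp.single i 1 + ind {0, 1, 2, 3}) (P * monomial (ind {0, 1, 2, 3}) 1
      + Q * monomial (ind {0, 1, 4, 5}) 1 + R * monomial (ind {2, 3, 4, 5}) 1)
      = coeff (Finsupp.single i 1) P := by
  rw [coeff_add, coeff_add, coeff_mul_monomial, mul_one, coeff_mul_monomial', coeff_mul_monomial',
    if_neg, if_neg, add_zero, add_zero]
  · intro h
    have h0 := h 4
    have h1 := h 5
    have hi : i ≠ 4 ∨ i ≠ 5 := by
      by_cases h : i = 4
      · right; rw [h]; decide
      · left; exact h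
    rcases hi with hi | hi
    · simp [hi] at h0
    · simp [hi] at h1
  · intro h
    have h0 := h 4
    have h1 := h 5
    have hi : i ≠ 4 ∨ i ≠ 5 := by
      by_cases h : i = 4
      · right; rw [h]; decide
      · left; exact h
    rcases hi with hi | hi
    · simp [hi] at h0
    · simp [hi] at h1

lemma coeff_extract0 (P Q R : MvPolynomial (Fin 6) K) :
    coeff (ind {0, 1, 2, 3}) (P * monomial (ind {0, 1, 2, 3}) 1
      + Q * monomial (ind {0, 1, 4, 5}) 1 + R * monomial (ind {2, 3, 4, 5}) 1)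
      = coeff 0 P := by
  have h1 : coeff (ind {0, 1, 2, 3}) (P * monomial (ind {0, 1, 2, 3}) 1) = coeff 0 P := by
    have := coeff_mul_monomial 0 (ind {0, 1, 2, 3}) (1 : K) P
    rwa [zero_add, mul_one] at this
  rw [coeff_add, coeff_add, h1, coeff_mul_monomial', coeff_mul_monomial', if_neg, if_neg,
    add_zero, add_zero]
  · intro h
    have h0 := h 4
    simp at h0
  · intro h
    have h0 := h 4
    simp at h0

lemma homogeneous_one_eq_zero (P : MvPolynomial (Fin 6) K) (hP : P.IsHomogeneous 1)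
    (h : ∀ i, coeff (Finsupp.single i 1) P = 0) : P = 0 := by
  ext m
  rw [coeff_zero]
  by_contra hm
  have h1 := hP hm
  have h2 : (m.sum fun _ n => n) = 1 := by
    have : m.degree = 1 := by
      rw [Finsupp.degree_eq_weight_one]; exact h1
    exact this
  obtain ⟨i, hi⟩ := (Finsupp.sum_eq_one_iff m).mp h2
  rw [hi] at hm
  exact hm (h i)

/-- The degree four component of `I^(2)` does not have a linear resolution. -/
lemma not_linear : ¬ HasLinearResolution (component (symbolicPower (treeIdeal K) 2) 4) 4 := by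
  rintro ⟨b, g, φ, hg, hspan, hφ, hex, -⟩
  have hcomp : component (symbolicPower (treeIdeal K) 2) 4 ≤ symbolicPower (treeIdeal K) 2 := by
    unfold component
    rw [Ideal.span_le]
    intro f hf
    exact hf.1
  have hgmem : ∀ a, g a ∈ symbolicPower (treeIdeal K) 2 := by
    intro a
    apply hcomp
    rw [← hspan]
    exact Ideal.subset_span ⟨a, rfl⟩
  let α : Fin (b 0) → K := fun a => coeff (ind {0, 1, 2, 3}) (g a)
  let β : Fin (b 0) → K := fun a => coeff (ind {0, 1, 4, 5}) (g a)
  let γ : Fin (b 0) → K := fun a => coeff (ind {2, 3, 4, 5}) (g a)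
  have hgeq : ∀ a, g a = C (α a) * monomial (ind {0, 1, 2, 3}) 1
      + C (β a) * monomial (ind {0, 1, 4, 5}) 1
      + C (γ a) * monomial (ind {2, 3, 4, 5}) 1 := fun a => eq_comb (g a) (hgmem a) (hg a)
  have hsum : ∀ v : Fin (b 0) → MvPolynomial (Fin 6) K, ∑ a, v a * g a
      = (∑ a, v a * C (α a)) * monomial (ind {0, 1, 2, 3}) 1
      + (∑ a, v a * C (β a)) * monomial (ind {0, 1, 4, 5}) 1
      + (∑ a, v a * C (γ a)) * monomial (ind {2, 3, 4, 5}) 1 := by
    intro v
    rw [Finset.sum_mul, Finset.sum_mul, Finset.sum_mul, ← Finset.sum_add_distrib,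
      ← Finset.sum_add_distrib]
    refine Finset.sum_congr rfl (fun a _ => ?_)
    rw [hgeq a]; ring
  -- linear syzygies
  have hcol : ∀ c, ∑ a, φ 0 a c * C (α a) = 0 := by
    intro c
    have hsyz : ∑ a, φ 0 a c * g a = 0 := by
      rw [hex (fun a => φ 0 a c)]
      refine ⟨Pi.single c 1, ?_⟩
      rw [Matrix.mulVec_single_one]
      rfl
    rw [hsum] at hsyz
    apply homogeneous_one_eq_zero
    · refine IsHomogeneous.sum _ _ _ (fun a _ => ?_)
      have := (hφ 0 a c).mul (isHomogeneous_C (Fin 6) (α a))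
      simpa using this
    · intro i
      rw [← coeff_extract _ (∑ a, φ 0 a c * C (β a)) (∑ a, φ 0 a c * C (γ a)) i, hsyz, coeff_zero]
  have hall : ∀ v : Fin (b 0) → MvPolynomial (Fin 6) K, ∑ a, v a * g a = 0 →
      ∑ a, v a * C (α a) = 0 := by
    intro v hv
    obtain ⟨w, rfl⟩ := (hex v).mp hv
    have h1 : ∀ a, (φ 0).mulVec w a * C (α a) = ∑ c, w c * (φ 0 a c * C (α a)) := by
      intro a
      rw [Matrix.mulVec, dotProduct, Finset.sum_mul]
      refine Finset.sum_congr rfl (fun c _ => by ring)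
    rw [Finset.sum_congr rfl (fun a _ => h1 a), Finset.sum_comm]
    refine Finset.sum_eq_zero (fun c _ => ?_)
    rw [← Finset.mul_sum, hcol c, mul_zero]
  -- the two Hamilton cycles
  have hhom : ∀ W : Finset (Fin 6), W.card = 4 →
      (monomial (ind W) (1 : K)).IsHomogeneous 4 := by
    intro W hW
    apply isHomogeneous_monomial
    rw [Finsupp.degree_apply, support_ind, Finset.sum_congr rfl
      (fun i hi => by rw [ind_apply, if_pos hi] : ∀ i ∈ W, ind W i = 1)]
    simp [hW]
  have hA : monomial (ind {0, 1, 2, 3}) (1 : K) ∈ Ideal.span (Set.range g) := by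
    rw [hspan]
    exact Ideal.subset_span ⟨monomial_mem_symbolicPower _ split_A, hhom _ (by decide)⟩
  have hB : monomial (ind {0, 1, 4, 5}) (1 : K) ∈ Ideal.span (Set.range g) := by
    rw [hspan]
    exact Ideal.subset_span ⟨monomial_mem_symbolicPower _ split_B, hhom _ (by decide)⟩
  obtain ⟨p, hp⟩ := (Ideal.mem_span_range_iff_exists_fun).mp hA
  obtain ⟨q, hq⟩ := (Ideal.mem_span_range_iff_exists_fun).mp hB
  have h1 := hall (fun a => monomial (ind {4, 5}) 1 * p a - monomial (ind {2, 3}) 1 * q a) (by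
    have : ∀ a, (monomial (ind {4, 5}) 1 * p a - monomial (ind {2, 3}) 1 * q a) * g a
        = monomial (ind {4, 5}) 1 * (p a * g a) - monomial (ind {2, 3}) 1 * (q a * g a) := by
      intro a; ring
    have hs : ind {4, 5} + ind {0, 1, 2, 3} = ind {2, 3} + ind {0, 1, 4, 5} := by
      ext i
      simp only [Finsupp.add_apply, ind_apply]
      fin_cases i <;> simp
    rw [Finset.sum_congr rfl (fun a _ => this a), Finset.sum_sub_distrib, ← Finset.mul_sum,
      ← Finset.mul_sum, hp, hq, monomial_mul, monomial_mul, sub_eq_zero, hs])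
  have h2 : monomial (ind {4, 5}) 1 * (∑ a, p a * C (α a))
      = monomial (ind {2, 3}) 1 * (∑ a, q a * C (α a)) := by
    have : ∀ a, (monomial (ind {4, 5}) 1 * p a - monomial (ind {2, 3}) 1 * q a) * C (α a)
        = monomial (ind {4, 5}) 1 * (p a * C (α a))
          - monomial (ind {2, 3}) 1 * (q a * C (α a)) := by
      intro a; ring
    rw [Finset.sum_congr rfl (fun a _ => this a), Finset.sum_sub_distrib, ← Finset.mul_sum,
      ← Finset.mul_sum, sub_eq_zero] at h1
    exact h1
  have h3 : coeff 0 (∑ a, p a * C (α a)) = 1 := by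
    have h5 := hsum p
    rw [hp] at h5
    have h6 := congrArg (coeff (ind {0, 1, 2, 3})) h5
    rw [coeff_extract0, coeff_monomial, if_pos rfl] at h6
    exact h6.symm
  have h4 := congrArg (coeff (ind {4, 5})) h2
  have h5 := coeff_monomial_mul 0 (ind {4, 5}) (1 : K) (∑ a, p a * C (α a))
  rw [add_zero, one_mul, h3] at h5
  rw [h5, coeff_monomial_mul', if_neg] at h4
  · exact one_ne_zero h4
  · intro h
    have := h 2
    simp at this

end Field

/-- **The symbolic square of the ideal of spanning trees of `K_4` is not componentwise linear.**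
For every field `K`, the ideal `I ⊂ K[x_1, …, x_6]` generated by the monomials of the spanning
trees of `K_4` is polymatroidal, but the ideal generated by the elements of degree `4` of
`I^(2)` has no linear resolution; in particular `I^(2)` is not componentwise linear. -/
theorem result (K : Type*) [Field K] :
    ∃ I : Ideal (MvPolynomial (Fin 6) K), IsPolymatroidal I ∧
      ¬ HasLinearResolution (component (symbolicPower I 2) 4) 4 ∧
      ¬ IsComponentwiseLinear (symbolicPower I 2) :=
  ⟨treeIdeal K, ⟨treeExponents, isPolymatroidBases, rfl⟩, not_linear, fun h => not_linear (h 4)⟩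

end Pool.Agent.Results.MP_d6f7e8_al.GraphicK4
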